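import Pool.Agent.Q168.CS.Fin

/-!
# MP_782c7c_an: a Clifford spectrum which is a one-manifold

There are three Hermitian `8 × 8` matrices whose Clifford spectrum is the union of two disjoint
circles, a one-manifold.
-/

set_option autoImplicit false

namespace Pool.Agent.Results.MP_782c7c_an.TwoCircles

open Pool.Agent.Q168.CS

theorem result : ∃ A : Fin 3 → Matrix (Fin 8) (Fin 8) ℂ,
    (∀ j, (A j).IsHermitian) ∧
    IsOneManifold (cliffordSpectrum A) ∧
    cliffordSpectrum A = {p : EuclideanSpace ℝ (Fin 3) |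
      (p 0 ^ 2 + p 1 ^ 2 = 864 / 2401 ∧ p 2 = 30 / 49) ∨
      ((p 0 - √(864 / 2401)) ^ 2 + p 1 ^ 2 = 864 / 2401 ∧ p 2 = 0)} :=
  ⟨oct, oct_herm, oneManifold_oct, spec_oct⟩

end Pool.Agent.Results.MP_782c7c_an.TwoCircles
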